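import Mathlib
import Pool.Agent.H13.EH

namespace Pool.Agent.Results.MP_6ea067_co.Full
open Finset

/-- The restricted signed `h`-fold sumset: signed sums of `h` pairwise distinct elements. -/
def rs {G : Type*} [AddCommGroup G] (h : ℕ) (A : Finset G) : Set G :=
  {x | ∃ a : Fin h → G, Function.Injective a ∧ (∀ i, a i ∈ A) ∧
    ∃ e : Fin h → ℤ, (∀ i, e i = 1 ∨ e i = -1) ∧ x = ∑ i, e i • a i}

lemma mem {G : Type*} [AddCommGroup G] {A : Finset G} (h : 0 ∉ rs 3 A) {a b c : G} (ha : a ∈ A)
    (hb : b ∈ A) (hc : c ∈ A) (h1 : a ≠ b) (h2 : a ≠ c) (h3 : b ≠ c) {x y z : G}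
    (hx : x = a ∨ x = -a) (hy : y = b ∨ y = -b) (hz : z = c ∨ z = -c) : x + y + z ≠ 0 := by
  intro e
  have s : ∀ u v : G, (u = v ∨ u = -v) → ∃ k : ℤ, (k = 1 ∨ k = -1) ∧ u = k • v := by
    rintro u v (rfl | rfl)
    · exact ⟨1, by simp, by simp⟩
    · exact ⟨-1, by simp, by simp⟩
  obtain ⟨i, hi, rfl⟩ := s _ _ hx
  obtain ⟨j, hj, rfl⟩ := s _ _ hy
  obtain ⟨k, hk, rfl⟩ := s _ _ hz
  refine h ⟨![a, b, c], ?_, ?_, ![i, j, k], ?_, ?_⟩
  · intro u v huv
    fin_cases u <;> fin_cases v <;> simp_all [eq_comm]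
  · intro u; fin_cases u <;> simpa
  · intro u; fin_cases u <;> simpa
  · rw [Fin.sum_univ_three]; exact e.symm

lemma up {p : ℕ} [Fact p.Prime] (hp : 5 ≤ p) (A : Finset (ZMod p)) (h : 0 ∉ rs 3 A) (h0 : 0 ∉ A) :
    (A ∪ A.image Neg.neg).card + 2 * A.card ≤ p + 3 := by
  have nz : ∀ k : ℕ, 0 < k → k < 5 → (k : ZMod p) ≠ 0 := fun k h1 h2 e => by
    have := Nat.le_of_dvd h1 ((ZMod.natCast_eq_zero_iff _ _).1 e); omega
  have n2 : (2 : ZMod p) ≠ 0 := by exact_mod_cast nz 2 (by omega) (by omega)
  have n3 : (3 : ZMod p) ≠ 0 := by exact_mod_cast nz 3 (by omega) (by omega)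
  set S := A ∪ A.image Neg.neg with hS
  have mS : ∀ x ∈ S, ∃ a ∈ A, x = a ∨ x = -a := by
    intro x hx
    rcases mem_union.1 hx with hx | hx
    · exact ⟨x, hx, Or.inl rfl⟩
    · obtain ⟨a, ha, rfl⟩ := mem_image.1 hx
      exact ⟨a, ha, Or.inr rfl⟩
  have z0 : ∀ z ∈ A, z ≠ 0 := fun z hz e => h0 (e ▸ hz)
  have rep : ∀ z ∈ A, ∀ x ∈ S, ∀ y ∈ S, x ≠ y → x + y = z → x = -z ∨ y = -z := by
    intro z hz x hx y hy hxy e
    obtain ⟨a, ha, hxa⟩ := mS x hx
    obtain ⟨b, hb, hyb⟩ := mS y hy
    have a0 := z0 a ha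
    have b0 := z0 b hb
    have zz := z0 z hz
    by_cases e1 : a = z
    · rcases hxa with e2 | e2
      · exfalso
        have : y = 0 := by linear_combination e - e2 - e1
        rcases hyb with e3 | e3
        · exact b0 (by rw [← e3, this])
        · exact b0 (by linear_combination e3 - this)
      · exact Or.inl (by rw [e2, e1])
    by_cases e4 : b = z
    · rcases hyb with e2 | e2
      · exfalso
        have : x = 0 := by linear_combination e - e2 - e4
        rcases hxa with e3 | e3
        · exact a0 (by rw [← e3, this])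
        · exact a0 (by linear_combination e3 - this)
      · exact Or.inr (by rw [e2, e4])
    exfalso
    have ab : a ≠ b := by
      rintro rfl
      rcases hxa with rfl | rfl <;> rcases hyb with rfl | rfl
      · exact hxy rfl
      · exact zz (by linear_combination -e)
      · exact zz (by linear_combination -e)
      · exact hxy rfl
    exact mem h ha hb hz ab e1 e4 hxa hyb (Or.inr rfl) (by linear_combination e)
  have cS : A.card ≤ S.card := card_le_card subset_union_left
  by_cases h1 : S.card ≤ 1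
  · omega
  have hA : A.Nonempty := by
    by_contra hh
    rw [not_nonempty_iff_eq_empty] at hh
    simp [hS, hh] at h1
  obtain ⟨z, hz⟩ := hA
  have cp : Fintype.card (ZMod p) = p := ZMod.card p
  have b1 : 2 * S.card ≤ p + 3 := by
    have c1 := card_union_add_card_inter S (S.image fun x => z - x)
    rw [card_image_of_injective _ sub_right_injective] at c1
    have c2 := card_le_univ (S ∪ S.image fun x => z - x)
    have c3 : S ∩ (S.image fun x => z - x) ⊆ {z / 2, -z, 2 * z} := by
      intro x hx
      obtain ⟨hx, hy⟩ := mem_inter.1 hx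
      obtain ⟨y, hy, e⟩ := mem_image.1 hy
      simp only [mem_insert, mem_singleton]
      by_cases e1 : x = y
      · left; field_simp; linear_combination e1 - e
      · rcases rep z hz x hx y hy e1 (by linear_combination -e) with e2 | e2
        · exact Or.inr (Or.inl e2)
        · exact Or.inr (Or.inr (by linear_combination -e - e2))
    have c4 := (card_le_card c3).trans card_le_three
    omega
  have b2 := Pool.Agent.H13.EH.eh S (A ∩ A.image Neg.neg)ᶜ (S.card - 2) (by omega) (by omega) (by
    intro x hx y hy hxy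
    rw [mem_compl]
    intro hz
    obtain ⟨hz, hw⟩ := mem_inter.1 hz
    obtain ⟨w, hw, e⟩ := mem_image.1 hw
    have w0 := z0 w hw
    have k : ∀ u ∈ S, u = -2 * w → False := by
      intro u hu e1
      obtain ⟨b, hb, hub⟩ := mS u hu
      have q1 : w ≠ x + y := fun e2 => w0 (by
        apply mul_left_cancel₀ n2; linear_combination e2 - e)
      have q2 : w ≠ b := fun e2 => by
        rcases hub with e3 | e3
        · exact w0 (by apply mul_left_cancel₀ n3; linear_combination e1 - e3 + e2)
        · exact w0 (by linear_combination e1 - e3 - e2)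
      have q3 : x + y ≠ b := fun e2 => by
        rcases hub with e3 | e3
        · exact w0 (by linear_combination e1 - e3 + e2 + e)
        · exact w0 (by apply mul_left_cancel₀ n3; linear_combination e1 - e3 - e2 - e)
      exact mem h hw hz hb q1 q2 q3 (Or.inl rfl) (Or.inr rfl) hub (by linear_combination e1 + e)
    rcases rep _ hz x hx y hy hxy rfl with e1 | e1
    · exact k y hy (by linear_combination -e1 - 2 * e)
    · exact k x hx (by linear_combination -e1 - 2 * e))
  rw [card_compl, cp] at b2
  have c1 := card_union_add_card_inter A (A.image Neg.neg)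
  rw [card_image_of_injective _ neg_injective, ← hS] at c1
  omega

lemma low (p : ℕ) (hp : 2 ≤ p) : ∃ A : Finset (ZMod p), A.card = p / 3 + 1 ∧ 0 ∉ rs 3 A := by
  refine ⟨(Icc (p / 3) (2 * (p / 3))).image Nat.cast, ?_, ?_⟩
  · rw [card_image_of_injOn, Nat.card_Icc]
    · omega
    · intro x hx y hy e
      simp only [coe_Icc, Set.mem_Icc] at hx hy
      have := (ZMod.natCast_eq_natCast_iff' _ _ _).1 e
      rwa [Nat.mod_eq_of_lt (by omega), Nat.mod_eq_of_lt (by omega)] at this
  · rintro ⟨a, ha, hA, e, he, h⟩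
    obtain ⟨x, hx, ex⟩ := mem_image.1 (hA 0)
    obtain ⟨y, hy, ey⟩ := mem_image.1 (hA 1)
    obtain ⟨z, hz, ez⟩ := mem_image.1 (hA 2)
    rw [mem_Icc] at hx hy hz
    have n1 : x ≠ y := fun q => absurd (ha (show a 0 = a 1 by rw [← ex, ← ey, q])) (by decide)
    have n2 : x ≠ z := fun q => absurd (ha (show a 0 = a 2 by rw [← ex, ← ez, q])) (by decide)
    have n3 : y ≠ z := fun q => absurd (ha (show a 1 = a 2 by rw [← ey, ← ez, q])) (by decide)
    rw [Fin.sum_univ_three, ← ex, ← ey, ← ez] at h
    have : ((e 0 * x + e 1 * y + e 2 * z : ℤ) : ZMod p) = 0 := by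
      rw [h]; push_cast; simp
    obtain ⟨t, ht⟩ := (ZMod.intCast_zmod_eq_zero_iff_dvd _ _).1 this
    have b : -2 * (p : ℤ) < p * t ∧ (p : ℤ) * t < 2 * p := by
      rw [← ht]
      rcases he 0 with q | q <;> rcases he 1 with r | r <;> rcases he 2 with s | s <;>
        rw [q, r, s] <;> omega
    have t1 : t < 2 := by nlinarith [b.2]
    have t2 : -2 < t := by nlinarith [b.1]
    rcases he 0 with q | q <;> rcases he 1 with r | r <;> rcases he 2 with s | s <;>
      rw [q, r, s] at ht <;> interval_cases t <;> omega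

lemma small {G : Type*} [AddCommGroup G] (A : Finset G) (h : A.card < 3) : 0 ∉ rs 3 A := by
  rintro ⟨a, ha, hA, -⟩
  have := card_le_card_of_injOn (s := univ) a (fun i _ => hA i) ha.injOn
  simp at this; omega

lemma five : ∃ A : Finset (ZMod 5), A.card = 3 ∧ 0 ∉ rs 3 A := by
  refine ⟨{0, 1, 2}, by decide, ?_⟩
  rintro ⟨a, ha, hA, e, he, h⟩
  rw [Fin.sum_univ_three] at h
  have n1 : a 0 ≠ a 1 := fun q => absurd (ha q) (by decide)
  have n2 : a 0 ≠ a 2 := fun q => absurd (ha q) (by decide)
  have n3 : a 1 ≠ a 2 := fun q => absurd (ha q) (by decide)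
  have m0 := hA 0
  have m1 := hA 1
  have m2 := hA 2
  revert h n1 n2 n3 m0 m1 m2
  generalize a 0 = x
  generalize a 1 = y
  generalize a 2 = z
  rcases he 0 with q | q <;> rcases he 1 with r | r <;> rcases he 2 with s | s <;>
    rw [q, r, s] <;> revert x y z <;> decide

lemma three : 0 ∈ rs 3 (univ : Finset (ZMod 3)) := by
  by_contra h
  exact mem h (mem_univ 0) (mem_univ 1) (mem_univ 2) (by decide) (by decide) (by decide)
    (Or.inl rfl) (Or.inl rfl) (Or.inl rfl) (by decide)

theorem result (p : ℕ) (hp : p.Prime) :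
    IsGreatest {m | ∃ A : Finset (ZMod p), A.card = m ∧ 0 ∉ rs 3 A}
      (if p = 2 then 2 else if p = 5 then 3 else p / 3 + 1) := by
  haveI := Fact.mk hp
  constructor
  · split_ifs with h2 h5
    · subst h2; exact ⟨univ, by simp, small _ (by simp)⟩
    · subst h5
      exact five
    · exact low p hp.two_le
  · rintro m ⟨A, rfl, h⟩
    have cA := card_le_univ A
    rw [ZMod.card] at cA
    by_cases h2 : p = 2
    · rw [if_pos h2]; omega
    rw [if_neg h2]
    by_cases h3 : p = 3
    · subst h3
      by_contra hh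
      have : A = univ := eq_univ_of_card _ (by rw [ZMod.card]; simp at hh; omega)
      subst this
      exact h three
    have p5 : 5 ≤ p := hp.five_le_of_ne_two_of_ne_three h2 h3
    have od := hp.eq_two_or_odd
    by_cases h0 : (0 : ZMod p) ∈ A
    · have hs : 0 ∉ rs 3 (A.erase 0) := fun ⟨a, ha, hA, r⟩ =>
        h ⟨a, ha, fun i => mem_of_mem_erase (hA i), r⟩
      have u := up p5 _ hs (by simp)
      have n2 : (2 : ZMod p) ≠ 0 := fun e => by
        have := Nat.le_of_dvd (by omega) ((ZMod.natCast_eq_zero_iff 2 p).1 (by exact_mod_cast e))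
        omega
      rw [card_union_of_disjoint, card_image_of_injective _ neg_injective] at u
      · have := card_erase_add_one h0
        split_ifs <;> omega
      · rw [disjoint_left]
        intro x hx hy
        obtain ⟨y, hy, e⟩ := mem_image.1 hy
        rw [mem_erase] at hx hy
        exact mem h hx.2 hy.2 h0 (fun q => hx.1 (by
          apply mul_left_cancel₀ n2; linear_combination q - e)) hx.1 hy.1 (Or.inl rfl) (Or.inl rfl)
          (Or.inl rfl) (by linear_combination -e)
    · have u := up p5 A h h0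
      have := card_le_card (subset_union_left : A ⊆ A ∪ A.image Neg.neg)
      split_ifs <;> omega

end Pool.Agent.Results.MP_6ea067_co.Full
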